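import Pool.Agent.Y6.G.Stm

/-!
# EP-GEN: generic parameters (measure theory)
-/

set_option autoImplicit false

namespace Pool.Agent.Y31.EP.Gen

open Set Filter Topology MeasureTheory
open Pool.Agent.Y6.G (S_GEN)

/-- the measure of a slab of a cube -/
theorem slab {J : Type} [Fintype J] [DecidableEq J] (F : J → ℝ) (j : J) (hj : F j ≠ 0) (δ Λ : ℝ)
    (hδ : 0 ≤ δ) (hΛ : 0 ≤ Λ) :
    volume {P : J → ℝ | (∀ i, P i ∈ Icc (0 : ℝ) Λ) ∧ |∑ i, P i * F i| < δ} ≤
      ENNReal.ofReal (Λ ^ (Fintype.card J - 1) * (2 * (δ / |F j|))) := by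
  have hdet : LinearMap.det (Matrix.toLin' ((1 : Matrix J J ℝ).updateRow j F)) = F j := by
    rw [LinearMap.det_toLin', ← Matrix.cramer_transpose_apply, Matrix.transpose_one,
      Matrix.cramer_one]
    rfl
  have hsub : {P : J → ℝ | (∀ i, P i ∈ Icc (0 : ℝ) Λ) ∧ |∑ i, P i * F i| < δ} ⊆
      (Matrix.toLin' ((1 : Matrix J J ℝ).updateRow j F)) ⁻¹'
        (Set.pi univ (Function.update (fun _ => Icc (0 : ℝ) Λ) j (Ioo (-δ) δ))) := by
    rintro P ⟨hP1, hP2⟩ i -
    rw [Matrix.toLin'_apply]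
    by_cases hij : i = j
    · subst hij
      rw [Function.update_self]
      have h1 : ((1 : Matrix J J ℝ).updateRow i F).mulVec P i = ∑ k, P k * F k := by
        rw [Matrix.mulVec, dotProduct]
        refine Finset.sum_congr rfl fun k _ => ?_
        rw [Matrix.updateRow_self, mul_comm]
      rw [h1]
      exact abs_lt.1 hP2
    · rw [Function.update_of_ne hij]
      have h1 : ((1 : Matrix J J ℝ).updateRow j F).mulVec P i = P i := by
        rw [Matrix.mulVec, dotProduct]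
        have h2 : ∀ k, (1 : Matrix J J ℝ).updateRow j F i k * P k =
            (1 : Matrix J J ℝ) i k * P k := fun k => by
          rw [Matrix.updateRow_ne hij]
        rw [Finset.sum_congr rfl fun k _ => h2 k]
        have h3 := congrFun (Matrix.one_mulVec P) i
        rwa [Matrix.mulVec, dotProduct] at h3
      rw [h1]
      exact hP1 i
  refine (measure_mono hsub).trans ?_
  rw [Measure.addHaar_preimage_linearMap volume (by rw [hdet]; exact hj), hdet, volume_pi_pi,
    ← Finset.mul_prod_erase Finset.univ _ (Finset.mem_univ j), Function.update_self,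
    Real.volume_Ioo]
  have h4 : ∏ x ∈ Finset.univ.erase j,
      volume (Function.update (fun _ => Icc (0 : ℝ) Λ) j (Ioo (-δ) δ) x) =
        ENNReal.ofReal (Λ ^ (Fintype.card J - 1)) := by
    rw [ENNReal.ofReal_pow hΛ]
    have h5 : ∀ x ∈ Finset.univ.erase j,
        volume (Function.update (fun _ => Icc (0 : ℝ) Λ) j (Ioo (-δ) δ) x) =
          ENNReal.ofReal Λ := by
      intro x hx
      rw [Function.update_of_ne (Finset.ne_of_mem_erase hx), Real.volume_Icc, sub_zero]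
    rw [Finset.prod_congr rfl h5, Finset.prod_const, Finset.card_erase_of_mem (Finset.mem_univ j),
      Finset.card_univ]
  rw [h4, ← ENNReal.ofReal_mul (by linarith), ← ENNReal.ofReal_mul (abs_nonneg _)]
  refine ENNReal.ofReal_le_ofReal (le_of_eq ?_)
  rw [abs_inv, div_eq_mul_inv]
  ring

/-- generic parameters -/
theorem t_GEN : S_GEN := by
  classical
  intro I J _ _ F δ hδ hS hF
  rcases isEmpty_or_nonempty J with hJ | hJ
  · refine ⟨fun _ => 0, fun τ => ?_⟩
    obtain ⟨j, -⟩ := hF τ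
    exact (hJ.false j).elim
  have hmax : ∀ τ, ∃ j, |F τ j| = ⨆ j, |F τ j| := fun τ => exists_eq_ciSup_of_finite
  choose k hk using hmax
  have hpos : ∀ τ, 0 < |F τ (k τ)| := by
    intro τ
    obtain ⟨j, hj⟩ := hF τ
    rw [hk]
    exact (abs_pos.2 hj).trans_le (le_ciSup (f := fun j => |F τ j|) (Set.finite_range _).bddAbove j)
  have hS' : Summable (fun τ => δ τ / |F τ (k τ)|) := by
    refine hS.congr fun τ => ?_
    rw [hk]
  have hnn : ∀ τ, 0 ≤ δ τ / |F τ (k τ)| := fun τ => div_nonneg (hδ τ) (hpos τ).le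
  have hSn : 0 ≤ ∑' τ, δ τ / |F τ (k τ)| := tsum_nonneg hnn
  obtain ⟨Λ, hΛ⟩ : ∃ Λ : ℝ, Λ = 2 * (∑' τ, δ τ / |F τ (k τ)|) + 1 := ⟨_, rfl⟩
  have hΛ0 : 0 < Λ := by linarith
  by_contra hcon
  push Not at hcon
  have hcov : Set.pi univ (fun _ : J => Icc (0 : ℝ) Λ) ⊆
      ⋃ τ, {P : J → ℝ | (∀ i, P i ∈ Icc (0 : ℝ) Λ) ∧ |∑ i, P i * F τ i| < δ τ} := by
    intro P hP
    obtain ⟨τ, hτ⟩ := hcon P
    exact mem_iUnion.2 ⟨τ, fun i => hP i (mem_univ i), hτ⟩
  have h1 : volume (Set.pi univ (fun _ : J => Icc (0 : ℝ) Λ)) =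
      ENNReal.ofReal (Λ ^ (Fintype.card J - 1) * Λ) := by
    rw [volume_pi_pi, Finset.prod_const, Real.volume_Icc, sub_zero, Finset.card_univ,
      ← ENNReal.ofReal_pow hΛ0.le, ← pow_succ]
    congr 2
    have := Fintype.card_pos (α := J)
    omega
  have h2 : volume (Set.pi univ (fun _ : J => Icc (0 : ℝ) Λ)) ≤
      ENNReal.ofReal (Λ ^ (Fintype.card J - 1) * (2 * ∑' τ, δ τ / |F τ (k τ)|)) := by
    refine (measure_mono hcov).trans ((measure_iUnion_le _).trans ?_)
    refine (ENNReal.tsum_le_tsum fun τ => slab (F τ) (k τ) (abs_pos.1 (hpos τ)) (δ τ) Λ (hδ τ)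
      hΛ0.le).trans ?_
    rw [← ENNReal.ofReal_tsum_of_nonneg (fun τ => mul_nonneg (pow_nonneg hΛ0.le _)
      (mul_nonneg zero_le_two (hnn τ))) ((hS'.mul_left 2).mul_left _), tsum_mul_left,
      tsum_mul_left]
  rw [h1, ENNReal.ofReal_le_ofReal_iff (by positivity)] at h2
  have h3 : Λ ≤ 2 * ∑' τ, δ τ / |F τ (k τ)| := le_of_mul_le_mul_left h2 (by positivity)
  linarith

end Pool.Agent.Y31.EP.Gen
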